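import Pool.Agent.Helper10.DE.Geo.CDefs

/-!
# DE IX.3  Flipping a cycle of components

`OCyc D g n x j`: distinct components (`F g`-orbits) of `x 0, .., x (n-1)`; the segment `i` is
`x i, F (x i), .., F^(j i) (x i)` (`F = F g`, pairwise distinct points by `simple`), the exit
`y i = g.1 (F^(j i) (x i))` satisfies `y i - x (i + 1) ∈ D` (indices mod `n`).

`flip_exists`: put `h.2 = g.2`, `h.1 = g.1 ∘ pred` with `pred (x (i+1)) = F^(j i) (x i)`,
`pred (F^k (x i)) = F^(k-1) (x i)` for `0 < k ≤ j i`, `pred a = a` off the segments.  `pred` is well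
defined and injective: the segments are in different components and simple; it maps the finite
union `T` of the segments into itself and is the identity off `T`, so it is a bijection of `Z^d`.
`IsD D h.1`: at `x (i+1)` by `edge`; at `a = F^k (x i)`, `k > 0`:
`h.1 a = g.1 (F^(k-1) (x i)) = g.2 (F^k (x i)) = g.2 a` (as `g.2 (F b) = g.1 b`), fine by `h2`.
The set of changes is contained in `T`.
(Tip: the union of segments as the finset `(range n).biUnion fun i => (range (j i + 1)).image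
fun k => (F^k) (x i)`; or build `pred⁻¹` as `List.formPerm` of the concatenated list.)
`flip_F`: `F h a = g.2⁻¹ (h.1 a) = F (pred a)`; from the fields of `IsFlip` only:
`F h (x (i+1)) = g.2⁻¹ (g.1 (F^(j i) (x i))) = F^(j i + 1) (x i)`; `F h a = g.2⁻¹ (g.2 a) = a` for inner
points; `F h a = F a` off the segments.
-/

noncomputable section

namespace DE

open Filter Topology

variable {d : ℕ}

private theorem seg_unique {D : Finset (Site d)} {g : Pr d} {n : ℕ} {x : ℕ → Site d} {j : ℕ → ℕ}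
    (hc : OCyc D g n x j) {i i' k k' : ℕ} (hi : i < n) (hi' : i' < n) (hk : k ≤ j i)
    (hk' : k' ≤ j i') (h : (F g ^ k) (x i) = (F g ^ k') (x i')) : i = i' ∧ k = k' := by
  have hii : i = i' := by
    by_contra hne
    apply hc.ne i hi i' hi' hne
    have h1 : (F g).SameCycle (x i) ((F g ^ k) (x i)) :=
      Equiv.Perm.sameCycle_pow_right.mpr (Equiv.Perm.SameCycle.refl _ _)
    have h2 : (F g).SameCycle (x i') ((F g ^ k') (x i')) :=
      Equiv.Perm.sameCycle_pow_right.mpr (Equiv.Perm.SameCycle.refl _ _)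
    rw [h] at h1
    exact h1.trans h2.symm
  subst hii
  refine ⟨rfl, ?_⟩
  have key : ∀ a b : ℕ, a ≤ b → b ≤ j i → (F g ^ a) (x i) = (F g ^ b) (x i) → a = b := by
    intro a b hab hb heq
    by_contra hne
    have hlt : a < b := lt_of_le_of_ne hab hne
    have : (F g ^ b) (x i) = (F g ^ a) ((F g ^ (b - a)) (x i)) := by
      rw [← Equiv.Perm.mul_apply, ← pow_add]
      congr 2
      omega
    rw [this] at heq
    have h3 := (F g ^ a).injective heq
    exact hc.simple i hi (b - a) (by omega) (by omega) h3.symm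
  rcases le_total k k' with hle | hle
  · exact key k k' hle hk' h
  · exact (key k' k hle hk h.symm).symm

open Classical in
private def nxt (g : Pr d) (n : ℕ) (x : ℕ → Site d) (j : ℕ → ℕ) (a : Site d) : Site d :=
  if h : ∃ p : ℕ × ℕ, p.1 < n ∧ p.2 ≤ j p.1 ∧ a = (F g ^ p.2) (x p.1) then
    if (Classical.choose h).2 < j (Classical.choose h).1 then
      (F g ^ ((Classical.choose h).2 + 1)) (x (Classical.choose h).1)
    else x (((Classical.choose h).1 + 1) % n)
  else a

private theorem nxt_inner {D : Finset (Site d)} {g : Pr d} {n : ℕ} {x : ℕ → Site d} {j : ℕ → ℕ}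
    (hc : OCyc D g n x j) {i k : ℕ} (hi : i < n) (hk : k < j i) :
    nxt g n x j ((F g ^ k) (x i)) = (F g ^ (k + 1)) (x i) := by
  have h : ∃ p : ℕ × ℕ, p.1 < n ∧ p.2 ≤ j p.1 ∧ (F g ^ k) (x i) = (F g ^ p.2) (x p.1) :=
    ⟨(i, k), hi, hk.le, rfl⟩
  obtain ⟨e1, e2, e3⟩ := Classical.choose_spec h
  obtain ⟨e4, e5⟩ := seg_unique hc hi e1 hk.le e2 e3
  unfold nxt
  rw [dif_pos h, ← e4, ← e5, if_pos hk]

private theorem nxt_end {D : Finset (Site d)} {g : Pr d} {n : ℕ} {x : ℕ → Site d} {j : ℕ → ℕ}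
    (hc : OCyc D g n x j) {i : ℕ} (hi : i < n) :
    nxt g n x j ((F g ^ (j i)) (x i)) = x ((i + 1) % n) := by
  have h : ∃ p : ℕ × ℕ, p.1 < n ∧ p.2 ≤ j p.1 ∧ (F g ^ (j i)) (x i) = (F g ^ p.2) (x p.1) :=
    ⟨(i, j i), hi, le_rfl, rfl⟩
  obtain ⟨e1, e2, e3⟩ := Classical.choose_spec h
  obtain ⟨e4, e5⟩ := seg_unique hc hi e1 le_rfl e2 e3
  unfold nxt
  rw [dif_pos h, ← e4, ← e5, if_neg (lt_irrefl _)]

private theorem nxt_off {g : Pr d} {n : ℕ} {x : ℕ → Site d} {j : ℕ → ℕ} {a : Site d}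
    (ha : ¬ InSeg g n x j a) : nxt g n x j a = a := by
  unfold nxt
  rw [dif_neg]
  rintro ⟨p, h1, h2, h3⟩
  exact ha ⟨p.1, h1, p.2, h2, h3⟩

private theorem prev_idx {n i : ℕ} (hi : i < n) : ∃ i' < n, (i' + 1) % n = i := by
  rcases Nat.eq_zero_or_pos i with h0 | h0
  · refine ⟨n - 1, by omega, ?_⟩
    have : n - 1 + 1 = n := by omega
    rw [this, Nat.mod_self, h0]
  · refine ⟨i - 1, by omega, ?_⟩
    have : i - 1 + 1 = i := by omega
    rw [this, Nat.mod_eq_of_lt hi]

private theorem succ_idx_inj {n i i' : ℕ} (hi : i < n) (hi' : i' < n)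
    (h : (i + 1) % n = (i' + 1) % n) : i = i' := by
  have h1 : i ≡ i' [MOD n] := Nat.ModEq.add_right_cancel' 1 h
  have h2 : i % n = i' % n := h1
  rwa [Nat.mod_eq_of_lt hi, Nat.mod_eq_of_lt hi'] at h2

private theorem nxt_mem {D : Finset (Site d)} {g : Pr d} {n : ℕ} {x : ℕ → Site d} {j : ℕ → ℕ}
    (hc : OCyc D g n x j) {a : Site d} (ha : InSeg g n x j a) : InSeg g n x j (nxt g n x j a) := by
  obtain ⟨i, hi, k, hk, rfl⟩ := ha
  rcases lt_or_eq_of_le hk with h | h
  · rw [nxt_inner hc hi h]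
    exact ⟨i, hi, k + 1, h, rfl⟩
  · rw [h, nxt_end hc hi]
    exact ⟨(i + 1) % n, Nat.mod_lt _ hc.pos, 0, Nat.zero_le _, by simp⟩

private theorem nxt_injective {D : Finset (Site d)} {g : Pr d} {n : ℕ} {x : ℕ → Site d}
    {j : ℕ → ℕ} (hc : OCyc D g n x j) : Function.Injective (nxt g n x j) := by
  intro a b hab
  by_cases ha : InSeg g n x j a
  · by_cases hb : InSeg g n x j b
    · obtain ⟨i, hi, k, hk, rfl⟩ := ha
      obtain ⟨i', hi', k', hk', rfl⟩ := hb
      rcases lt_or_eq_of_le hk with h | h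
      · rcases lt_or_eq_of_le hk' with h' | h'
        · rw [nxt_inner hc hi h, nxt_inner hc hi' h'] at hab
          obtain ⟨e1, e2⟩ := seg_unique hc hi hi' h h' hab
          subst e1
          have : k = k' := by omega
          rw [this]
        · subst h'
          rw [nxt_inner hc hi h, nxt_end hc hi'] at hab
          have e := seg_unique hc hi (Nat.mod_lt (i' + 1) hc.pos) h (Nat.zero_le _)
            (by rw [hab]; simp)
          omega
      · subst h
        rcases lt_or_eq_of_le hk' with h' | h'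
        · rw [nxt_end hc hi, nxt_inner hc hi' h'] at hab
          have e := seg_unique hc hi' (Nat.mod_lt (i + 1) hc.pos) h' (Nat.zero_le _)
            (by rw [← hab]; simp)
          omega
        · subst h'
          rw [nxt_end hc hi, nxt_end hc hi'] at hab
          have e := seg_unique hc (Nat.mod_lt (i + 1) hc.pos) (Nat.mod_lt (i' + 1) hc.pos)
            (Nat.zero_le _) (Nat.zero_le _) (by simpa using hab)
          have e2 := succ_idx_inj hi hi' e.1
          subst e2
          rfl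
    · exfalso
      apply hb
      rw [nxt_off hb] at hab
      rw [← hab]
      exact nxt_mem hc ha
  · by_cases hb : InSeg g n x j b
    · exfalso
      apply ha
      rw [nxt_off ha] at hab
      rw [hab]
      exact nxt_mem hc hb
    · rwa [nxt_off ha, nxt_off hb] at hab

private theorem nxt_surjective {D : Finset (Site d)} {g : Pr d} {n : ℕ} {x : ℕ → Site d}
    {j : ℕ → ℕ} (hc : OCyc D g n x j) : Function.Surjective (nxt g n x j) := by
  intro b
  by_cases hb : InSeg g n x j b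
  · obtain ⟨i, hi, k, hk, rfl⟩ := hb
    rcases Nat.eq_zero_or_pos k with h0 | h0
    · obtain ⟨i', hi', he⟩ := prev_idx hi
      refine ⟨(F g ^ (j i')) (x i'), ?_⟩
      rw [nxt_end hc hi', he, h0]
      simp
    · refine ⟨(F g ^ (k - 1)) (x i), ?_⟩
      rw [nxt_inner hc hi (by omega)]
      congr 2
      omega
  · exact ⟨b, nxt_off hb⟩

private theorem F_apply (g : Pr d) (a : Site d) : g.2 (F g a) = g.1 a := by
  simp [F]

private theorem inSeg_finite (g : Pr d) (n : ℕ) (x : ℕ → Site d) (j : ℕ → ℕ) :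
    {a | InSeg g n x j a}.Finite := by
  have : {a | InSeg g n x j a} ⊆
      ↑((Finset.range n).biUnion fun i => (Finset.range (j i + 1)).image
        fun k => (F g ^ k) (x i)) := by
    rintro a ⟨i, hi, k, hk, rfl⟩
    simp only [Finset.coe_biUnion, Finset.coe_range, Set.mem_Iio, Finset.coe_image, Set.mem_iUnion,
      Set.mem_image]
    exact ⟨i, hi, k, by omega, rfl⟩
  exact (Finset.finite_toSet _).subset this

theorem flip_exists (D : Finset (Site d)) (g : Pr d) (h1 : IsD D g.1) (h2 : IsD D g.2)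
    (n : ℕ) (x : ℕ → Site d) (j : ℕ → ℕ) (hc : OCyc D g n x j) :
    ∃ h : Pr d, IsFlip g h n x j ∧ IsD D h.1 ∧ IsD D h.2 ∧
      {a | h.1 a ≠ g.1 a ∨ h.2 a ≠ g.2 a}.Finite := by
  obtain ⟨e, he⟩ : ∃ e : Equiv.Perm (Site d), ∀ a, e a = nxt g n x j a :=
    ⟨Equiv.ofBijective _ ⟨nxt_injective hc, nxt_surjective hc⟩, fun a => rfl⟩
  have hsym : ∀ a b, nxt g n x j a = b → e⁻¹ b = a := by
    intro a b hab
    rw [Equiv.Perm.inv_eq_iff_eq, he, hab]
  have hentry : ∀ i < n, (g.1 * e⁻¹) (x ((i + 1) % n)) = g.1 ((F g ^ j i) (x i)) := by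
    intro i hi
    rw [Equiv.Perm.mul_apply, hsym _ _ (nxt_end hc hi)]
  have hinner : ∀ i < n, ∀ k, 0 < k → k ≤ j i →
      (g.1 * e⁻¹) ((F g ^ k) (x i)) = g.2 ((F g ^ k) (x i)) := by
    intro i hi k hk0 hk
    have h3 : nxt g n x j ((F g ^ (k - 1)) (x i)) = (F g ^ k) (x i) := by
      rw [nxt_inner hc hi (by omega)]
      congr 2
      omega
    have h4 : (F g) ((F g ^ (k - 1)) (x i)) = (F g ^ k) (x i) := by
      rw [← Equiv.Perm.mul_apply, ← pow_succ']
      congr 2
      omega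
    rw [Equiv.Perm.mul_apply, hsym _ _ h3, ← F_apply, h4]
  have hoff : ∀ a, ¬ InSeg g n x j a → (g.1 * e⁻¹) a = g.1 a := by
    intro a ha
    rw [Equiv.Perm.mul_apply, hsym _ _ (nxt_off ha)]
  refine ⟨(g.1 * e⁻¹, g.2), ⟨rfl, hentry, hinner, hoff⟩, ?_, h2, ?_⟩
  · intro a
    by_cases ha : InSeg g n x j a
    · obtain ⟨i, hi, k, hk, rfl⟩ := ha
      rcases Nat.eq_zero_or_pos k with h0 | h0
      · obtain ⟨i', hi', he'⟩ := prev_idx hi
        subst h0
        have h4 := hentry i' hi'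
        have h5 := hc.edge i' hi'
        rw [he'] at h4 h5
        simpa [h4] using h5
      · show (g.1 * e⁻¹) _ - _ ∈ D
        rw [hinner i hi k h0 hk]
        exact h2 _
    · show (g.1 * e⁻¹) _ - _ ∈ D
      rw [hoff a ha]
      exact h1 a
  · apply (inSeg_finite g n x j).subset
    intro a ha
    by_contra hna
    rcases ha with ha | ha
    · exact ha (hoff a hna)
    · exact ha rfl

theorem flip_F (D : Finset (Site d)) (g h : Pr d) (n : ℕ) (x : ℕ → Site d) (j : ℕ → ℕ)
    (hc : OCyc D g n x j) (hh : IsFlip g h n x j) :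
    (∀ i < n, F h (x ((i + 1) % n)) = (F g ^ (j i + 1)) (x i)) ∧
    (∀ i < n, ∀ k, 0 < k → k ≤ j i → F h ((F g ^ k) (x i)) = (F g ^ k) (x i)) ∧
    (∀ a, ¬ InSeg g n x j a → F h a = F g a) := by
  have hF : ∀ a, F h a = g.2⁻¹ (h.1 a) := by
    intro a
    simp [F, hh.snd]
  refine ⟨?_, ?_, ?_⟩
  · intro i hi
    rw [hF, hh.entry i hi, pow_succ']
    simp [F]
  · intro i hi k hk0 hk
    rw [hF, hh.inner i hi k hk0 hk]
    simp
  · intro a ha
    rw [hF, hh.off a ha]
    simp [F]

end DE
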