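import Pool.Agent.Helper10.DE.Geo.CDefs

/-!
# DE IX.5  Shortest paths

* `du_cedge`: `f.1 a - b ∈ D`: take `y = f.1 a`, `b' = b`.  `f.2 a - b ∈ D`: take `y = f.2 a`,
  `f.1⁻¹ y = f.1⁻¹ (f.2 a) = (F f)⁻¹ a`, in the component of `a`.
* `min_path`: take a path of minimal length `k` among all paths `z 0, .., z k` along `r` with
  `z 0 ∈ A`, `z k ∈ B` (there is one: convert `ReflTransGen` into a sequence).  If `z i ∈ A` with
  `i > 0`, or `z i ∈ B` with `i < k`, there is a shorter one.  If `e (z i) (z i')`, `i < i' ≤ k`: for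
  `i' < k`, `r (z i') (z (i'+1))` gives `r (z i) (z (i'+1))` (hypothesis `hr`), shorter; for `i' = k`,
  `z i ∈ B` by `hB`, shorter.
-/

noncomputable section

namespace DE

open Filter Topology

variable {d : ℕ}

theorem du_cedge (D : Finset (Site d)) (f : Pr d) (a b : Site d) (h : DU D f.1 f.2 a b) :
    CEdge D f a b := by
  rcases h with h | h
  · refine ⟨f.1 a, b, ?_, h, Equiv.Perm.SameCycle.refl _ _⟩
    have h1 : f.1⁻¹ (f.1 a) = a := by simp
    rw [h1]
    exact Equiv.Perm.SameCycle.refl _ _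
  · refine ⟨f.2 a, b, ?_, h, Equiv.Perm.SameCycle.refl _ _⟩
    refine ⟨-1, ?_⟩
    rw [zpow_neg_one, F, mul_inv_rev, inv_inv, Equiv.Perm.mul_apply]

private theorem seq_of_gen {α : Type*} (r : α → α → Prop) (p q : α)
    (h : Relation.ReflTransGen r p q) :
    ∃ (k : ℕ) (z : ℕ → α), z 0 = p ∧ z k = q ∧ ∀ i < k, r (z i) (z (i + 1)) := by
  induction h with
  | refl => exact ⟨0, fun _ => p, rfl, rfl, fun i hi => absurd hi (Nat.not_lt_zero i)⟩
  | @tail b c _ hbc ih =>
    obtain ⟨k, z, h0, hk, hs⟩ := ih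
    refine ⟨k + 1, fun i => if i ≤ k then z i else c, ?_, ?_, ?_⟩
    · simp [h0]
    · simp
    · intro i hi
      rcases Nat.lt_or_ge i k with h1 | h1
      · have h2 : i ≤ k := h1.le
        have h3 : i + 1 ≤ k := h1
        simp only [h2, h3, if_true]
        exact hs i h1
      · have h2 : i = k := by omega
        subst h2
        have h3 : ¬ (i + 1 ≤ i) := by omega
        simp only [le_refl, if_true, h3, if_false]
        rw [hk]
        exact hbc

theorem min_path {α : Type*} (r e : α → α → Prop)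
    (hr : ∀ a a' b, e a a' → r a' b → r a b) (A B : Set α)
    (hB : ∀ a a', e a a' → a' ∈ B → a ∈ B) (p q : α) (hp : p ∈ A) (hq : q ∈ B)
    (h : Relation.ReflTransGen r p q) :
    ∃ (k : ℕ) (z : ℕ → α), z 0 ∈ A ∧ z k ∈ B ∧ (∀ i < k, r (z i) (z (i + 1))) ∧
      (∀ i, 0 < i → i ≤ k → z i ∉ A) ∧ (∀ i < k, z i ∉ B) ∧
      (∀ i ≤ k, ∀ i' ≤ k, i < i' → ¬ e (z i) (z i')) := by
  classical
  have hex : ∃ k : ℕ, ∃ z : ℕ → α, z 0 ∈ A ∧ z k ∈ B ∧ ∀ i < k, r (z i) (z (i + 1)) := by
    obtain ⟨k, z, h0, hk, hs⟩ := seq_of_gen r p q h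
    exact ⟨k, z, h0 ▸ hp, hk ▸ hq, hs⟩
  obtain ⟨z, hz0, hzk, hs⟩ := Nat.find_spec hex
  set k := Nat.find hex with hk
  have hmin : ∀ m < k, ¬ ∃ z : ℕ → α, z 0 ∈ A ∧ z m ∈ B ∧ ∀ i < m, r (z i) (z (i + 1)) :=
    fun m hm => Nat.find_min hex hm
  have hBk : ∀ i < k, z i ∉ B := by
    intro i hi hiB
    exact hmin i hi ⟨z, hz0, hiB, fun j hj => hs j (hj.trans hi)⟩
  refine ⟨k, z, hz0, hzk, hs, ?_, hBk, ?_⟩
  · intro i hi hik hiA
    refine hmin (k - i) (by omega) ⟨fun j => z (i + j), by simpa using hiA, ?_, ?_⟩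
    · have h1 : i + (k - i) = k := by omega
      simp only [h1]
      exact hzk
    · intro j hj
      have h1 := hs (i + j) (by omega)
      simpa [Nat.add_assoc] using h1
  · intro i hi i' hi' hlt he
    rcases Nat.lt_or_ge i' k with h1 | h1
    · have hr1 : r (z i) (z (i' + 1)) := hr _ _ _ he (hs i' h1)
      refine hmin (k - (i' - i)) (by omega)
        ⟨fun j => if j ≤ i then z j else z (j + (i' - i)), ?_, ?_, ?_⟩
      · simpa using hz0
      · have h2 : ¬ (k - (i' - i) ≤ i) := by omega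
        have h3 : k - (i' - i) + (i' - i) = k := by omega
        simp only [h2, if_false, h3]
        exact hzk
      · intro j hj
        rcases Nat.lt_trichotomy j i with h2 | h2 | h2
        · have h3 : j ≤ i := h2.le
          have h4 : j + 1 ≤ i := h2
          simp only [h3, h4, if_true]
          exact hs j (by omega)
        · subst h2
          have h4 : ¬ (j + 1 ≤ j) := by omega
          have h5 : j + 1 + (i' - j) = i' + 1 := by omega
          simp only [le_refl, if_true, h4, if_false, h5]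
          exact hr1
        · have h3 : ¬ (j ≤ i) := by omega
          have h4 : ¬ (j + 1 ≤ i) := by omega
          have h5 : j + 1 + (i' - i) = j + (i' - i) + 1 := by omega
          simp only [h3, h4, if_false, h5]
          exact hs _ (by omega)
    · have h2 : i' = k := by omega
      subst h2
      exact hBk i (by omega) (hB _ _ he hzk)

end DE
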