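import Pool.Agent.Helper10.DE.CC.Flip

/-!
# DE IX.4  The rays after the flip

Write `F = F g`, `H = F h`.  `InSeg` = on one of the segments.
* `flip_rays` (component `i` infinite).  The points `F^(j i + 1 + t) (x i)`, `t ≥ 0`, are not on a
  segment: not on the segment `i` (the orbit is infinite, so `F^a (x i) = F^b (x i)` only if `a = b`),
  not on the others (different components).  So `H = F` there: induction on `t`.  Likewise
  `F^(-t) (x i)`, `t ≥ 1`, is not on a segment, so `H (F^(-t) (x i)) = F^(-t+1) (x i)`, i.e.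
  `H⁻¹ (F^(-t+1) (x i)) = F^(-t) (x i)`: induction.
* `flip_fin` (component `i` finite, period `P`, `j i < P` by `simple`: if `P ≤ j i` then
  `F^P (x i) = x i` contradicts `simple`).  The points `F^k (x i)`, `j i < k < P`, are not on a segment,
  so `H` acts as `F` on them, and `F^P (x i) = x i`: iterating `H` from `F^(j i + 1) (x i)` one arrives
  at `x i`.  `H (x ((i+1) % n)) = F^(j i + 1) (x i)` by `flip_F`.  Every `z` in the component of `x i`
  which is not on the segment `i` is `F^k (x i)` with `j i < k < P`.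
-/

noncomputable section

namespace DE

open Filter Topology

variable {d : ℕ}

/-- powers with exponents outside the segment (infinite component) -/
theorem Rays.off_of_inf (D : Finset (Site d)) (g : Pr d) (n : ℕ) (x : ℕ → Site d) (j : ℕ → ℕ)
    (hc : OCyc D g n x j) (i : ℕ) (hi : i < n) (hinf : IsInf g (x i)) (m : ℤ)
    (hm : m < 0 ∨ (j i : ℤ) < m) : ¬ InSeg g n x j ((F g ^ m) (x i)) := by
  rintro ⟨i', hi', k, hk, he⟩
  by_cases hii : i = i'
  · subst hii
    have hd : (F g ^ (m - (k : ℤ))) (x i) = x i := by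
      have h1 : F g ^ (m - (k : ℤ)) = (F g ^ (k : ℤ))⁻¹ * F g ^ m := by
        rw [← zpow_neg, ← zpow_add]
        congr 1
        ring
      rw [h1, Equiv.Perm.mul_apply, he, Equiv.Perm.inv_eq_iff_eq]
      simp
    have hne : m - (k : ℤ) ≠ 0 := by
      rcases hm with hm | hm <;> omega
    rcases lt_or_gt_of_ne hne with h | h
    · have h2 : (F g ^ ((k : ℤ) - m)) (x i) = x i := by
        have h3 : F g ^ ((k : ℤ) - m) = (F g ^ (m - (k : ℤ)))⁻¹ := by
          rw [← zpow_neg]
          congr 1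
          ring
        rw [h3, Equiv.Perm.inv_eq_iff_eq]
        exact hd.symm
      obtain ⟨a, ha⟩ := Int.eq_ofNat_of_zero_le (show (0 : ℤ) ≤ (k : ℤ) - m by omega)
      rw [ha, zpow_natCast] at h2
      exact hinf a (by omega) h2
    · obtain ⟨a, ha⟩ := Int.eq_ofNat_of_zero_le (show (0 : ℤ) ≤ m - (k : ℤ) by omega)
      rw [ha, zpow_natCast] at hd
      exact hinf a (by omega) hd
  · apply hc.ne i hi i' hi' hii
    have h1 : SC g (x i) ((F g ^ m) (x i)) := ⟨m, rfl⟩
    have h2 : SC g (x i') ((F g ^ m) (x i)) := ⟨(k : ℤ), by rw [he, zpow_natCast]⟩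
    exact h1.trans h2.symm

theorem flip_rays (D : Finset (Site d)) (g h : Pr d) (n : ℕ) (x : ℕ → Site d) (j : ℕ → ℕ)
    (hc : OCyc D g n x j) (hh : IsFlip g h n x j) (i : ℕ) (hi : i < n) (hinf : IsInf g (x i)) :
    (∀ t : ℕ, (F h ^ t) ((F g ^ (j i + 1)) (x i)) = (F g ^ (j i + 1 + t)) (x i)) ∧
    (∀ t : ℕ, ((F h)⁻¹ ^ t) (x i) = ((F g)⁻¹ ^ t) (x i)) := by
  obtain ⟨-, -, hF⟩ := flip_F D g h n x j hc hh
  constructor
  · intro t
    induction t with
    | zero => simp
    | succ t ih =>
      rw [pow_succ', Equiv.Perm.mul_apply, ih]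
      have hoff := Rays.off_of_inf D g n x j hc i hi hinf ((j i + 1 + t : ℕ) : ℤ)
        (Or.inr (by push_cast; omega))
      rw [zpow_natCast] at hoff
      rw [hF _ hoff, ← Equiv.Perm.mul_apply, ← pow_succ']
      rfl
  · intro t
    induction t with
    | zero => simp
    | succ t ih =>
      rw [pow_succ', Equiv.Perm.mul_apply, ih, Equiv.Perm.inv_eq_iff_eq]
      have hoff := Rays.off_of_inf D g n x j hc i hi hinf (-((t + 1 : ℕ) : ℤ))
        (Or.inl (by push_cast; omega))
      rw [zpow_neg, zpow_natCast, ← inv_pow] at hoff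
      rw [hF _ hoff, pow_succ' ((F g)⁻¹), Equiv.Perm.mul_apply]
      exact ((F g).apply_symm_apply _).symm

theorem flip_fin (D : Finset (Site d)) (g h : Pr d) (n : ℕ) (x : ℕ → Site d) (j : ℕ → ℕ)
    (hc : OCyc D g n x j) (hh : IsFlip g h n x j) (i : ℕ) (hi : i < n)
    (hfin : ¬ IsInf g (x i)) :
    SC h (x ((i + 1) % n)) (x i) ∧
    (∀ z, SC g (x i) z → (∀ k ≤ j i, z ≠ (F g ^ k) (x i)) → SC h z (x i)) := by
  obtain ⟨hF1, -, hF⟩ := flip_F D g h n x j hc hh
  classical
  have hex : ∃ P : ℕ, 0 < P ∧ (F g ^ P) (x i) = x i := by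
    unfold IsInf at hfin
    push Not at hfin
    exact hfin
  obtain ⟨P, hP⟩ : ∃ P, P = Nat.find hex := ⟨_, rfl⟩
  have hP0 : 0 < P := hP ▸ (Nat.find_spec hex).1
  have hPx : (F g ^ P) (x i) = x i := hP ▸ (Nat.find_spec hex).2
  have hPmin : ∀ k, 0 < k → k < P → (F g ^ k) (x i) ≠ x i := by
    intro k hk hkP he
    exact Nat.find_min hex (hP ▸ hkP) ⟨hk, he⟩
  have hjP : j i < P := by
    by_contra hcon
    push Not at hcon
    exact hc.simple i hi P hP0 hcon hPx
  have hoff : ∀ k, j i < k → k < P → ¬ InSeg g n x j ((F g ^ k) (x i)) := by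
    rintro k hk hkP ⟨i', hi', k', hk', he⟩
    by_cases hii : i = i'
    · subst hii
      apply hPmin (k - k') (by omega) (by omega)
      have h1 : F g ^ k = F g ^ k' * F g ^ (k - k') := by
        rw [← pow_add]
        congr 1
        omega
      rw [h1, Equiv.Perm.mul_apply] at he
      exact (F g ^ k').injective he
    · apply hc.ne i hi i' hi' hii
      have h1 : SC g (x i) ((F g ^ k) (x i)) := ⟨(k : ℤ), by rw [zpow_natCast]⟩
      have h2 : SC g (x i') ((F g ^ k) (x i)) := ⟨(k' : ℤ), by rw [he, zpow_natCast]⟩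
      exact h1.trans h2.symm
  have hit : ∀ t, j i + 1 + t ≤ P →
      (F h ^ t) ((F g ^ (j i + 1)) (x i)) = (F g ^ (j i + 1 + t)) (x i) := by
    intro t
    induction t with
    | zero => intro _; simp
    | succ t ih =>
      intro ht
      rw [pow_succ', Equiv.Perm.mul_apply, ih (by omega),
        hF _ (hoff (j i + 1 + t) (by omega) (by omega)), ← Equiv.Perm.mul_apply, ← pow_succ']
      rfl
  -- the base point
  have hbase : SC h ((F g ^ (j i + 1)) (x i)) (x i) := by
    refine ⟨((P - (j i + 1) : ℕ) : ℤ), ?_⟩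
    rw [zpow_natCast, hit _ (by omega)]
    have : j i + 1 + (P - (j i + 1)) = P := by omega
    rw [this]
    exact hPx
  constructor
  · have h1 : SC h (x ((i + 1) % n)) ((F g ^ (j i + 1)) (x i)) := by
      refine ⟨1, ?_⟩
      rw [zpow_one]
      exact hF1 i hi
    exact h1.trans hbase
  · rintro z ⟨m, hm⟩ hz
    obtain ⟨k, hk⟩ := Int.eq_ofNat_of_zero_le (Int.emod_nonneg m (by omega : (P : ℤ) ≠ 0))
    have hkP : k < P := by
      have := Int.emod_lt_of_pos m (by omega : (0 : ℤ) < P)
      omega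
    have hzk : z = (F g ^ k) (x i) := by
      rw [← hm]
      have h1 : m = (k : ℤ) + (P : ℤ) * (m / P) := by
        have := Int.emod_add_mul_ediv m P
        omega
      have h2 : (F g ^ ((P : ℤ) * (m / P))) (x i) = x i := by
        rw [zpow_mul, zpow_natCast]
        exact Function.IsFixedPt.perm_zpow hPx _
      conv_lhs => rw [h1]
      rw [zpow_add, Equiv.Perm.mul_apply, h2, zpow_natCast]
    have hkj : j i < k := by
      by_contra hcon
      push Not at hcon
      exact hz k hcon hzk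
    obtain ⟨t, ht⟩ : ∃ t, k = j i + 1 + t := ⟨k - (j i + 1), by omega⟩
    have h3 : SC h ((F g ^ (j i + 1)) (x i)) z := by
      refine ⟨(t : ℤ), ?_⟩
      rw [zpow_natCast, hit t (by omega), hzk, ht]
    exact h3.symm.trans hbase

end DE
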