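import Pool.Agent.Helper10.DE.Geo.CDefs

/-!
# DE IX.1  Exchanging the two permutations on an invariant set

`F f = f.2⁻¹ * f.1`.  `A` invariant under `F f`: then `f.1 '' A = f.2 '' A` (as `f.2 (F f a) = f.1 a`).
* `swap_exists`: define `g.1 a = f.2 a` on `A`, `f.1 a` off `A`; injective because `f.2 '' A = f.1 '' A`
  is disjoint from `f.1 '' Aᶜ`; surjective similarly; `Equiv.ofBijective`.  Same for `g.2`.
* `swap_F`: for `a ∈ A`: `g.1 a = f.2 a`; `b = (F f)⁻¹ a ∈ A` has `f.1 b = f.2 a`, so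
  `g.2 b = f.1 b = f.2 a = g.1 a`, i.e. `F g a = b`.
* `swap_odd`: if `z = f.1⁻¹ y ∈ A` then `g.1⁻¹ y = f.2⁻¹ y = F f z` (it is in `A`); else `g.1⁻¹ y = z`.
-/

noncomputable section

namespace DE

open Filter Topology

variable {d : ℕ}

namespace SwapAux

theorem ais {α : Type*} (p : Equiv.Perm α) (a : α) : p (p⁻¹ a) = a := p.apply_symm_apply a

theorem F_apply (f : Pr d) (a : Site d) : f.2 (F f a) = f.1 a := by
  unfold F
  simp

theorem F_inv (f : Pr d) (a : Site d) : f.1 ((F f)⁻¹ a) = f.2 a := by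
  unfold F
  simp

theorem inv_mem (f : Pr d) (A : Set (Site d)) (hA : ∀ a, F f a ∈ A ↔ a ∈ A) (a : Site d) :
    (F f)⁻¹ a ∈ A ↔ a ∈ A := by
  rw [← hA, ais]

theorem npow_agree {α : Type*} (p q : Equiv.Perm α) (A : Set α) (hp : ∀ a, p a ∈ A ↔ a ∈ A)
    (h : ∀ a ∈ A, q a = p a) (n : ℕ) : ∀ a ∈ A, (q ^ n) a = (p ^ n) a := by
  induction n with
  | zero => intro a _; simp
  | succ n ih =>
    intro a ha
    rw [pow_succ, pow_succ, Equiv.Perm.mul_apply, Equiv.Perm.mul_apply, h a ha,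
      ih (p a) ((hp a).2 ha)]

theorem zpow_agree {α : Type*} (p q : Equiv.Perm α) (A : Set α) (hp : ∀ a, p a ∈ A ↔ a ∈ A)
    (h : ∀ a ∈ A, q a = p a) (n : ℤ) : ∀ a ∈ A, (q ^ n) a = (p ^ n) a := by
  intro a ha
  obtain ⟨m, hm | hm⟩ := Int.eq_nat_or_neg n
  · rw [hm, zpow_natCast, zpow_natCast]
    exact npow_agree p q A hp h m a ha
  · rw [hm, zpow_neg, zpow_neg, zpow_natCast, zpow_natCast, ← inv_pow, ← inv_pow]
    have hp' : ∀ a, p⁻¹ a ∈ A ↔ a ∈ A := by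
      intro a
      rw [← hp, ais]
    refine npow_agree p⁻¹ q⁻¹ A hp' ?_ m a ha
    intro b hb
    rw [Equiv.Perm.inv_eq_iff_eq, h _ ((hp' b).2 hb), ais]

end SwapAux

theorem swap_exists (f : Pr d) (A : Set (Site d)) (hA : ∀ a, F f a ∈ A ↔ a ∈ A) :
    ∃ g, IsSwap f g A := by
  classical
  set ρ : Equiv.Perm (Site d) := Equiv.Perm.ofSubtype ((F f).subtypePerm (p := fun a => a ∈ A) hA)
    with hρ
  have h1 : ∀ a ∈ A, ρ a = F f a := by
    intro a ha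
    rw [hρ, Equiv.Perm.ofSubtype_apply_of_mem _ ha]
    rfl
  have h2 : ∀ a, a ∉ A → ρ a = a := by
    intro a ha
    rw [hρ, Equiv.Perm.ofSubtype_apply_of_not_mem _ ha]
  refine ⟨(f.1 * ρ⁻¹, f.2 * ρ), ?_, ?_⟩
  · intro a ha
    constructor
    · have h3 : ρ⁻¹ a = (F f)⁻¹ a := by
        rw [Equiv.Perm.inv_eq_iff_eq, h1 _ ((SwapAux.inv_mem f A hA a).2 ha),
          SwapAux.ais]
      rw [Equiv.Perm.mul_apply, h3, SwapAux.F_inv]
    · rw [Equiv.Perm.mul_apply, h1 a ha, SwapAux.F_apply]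
  · intro a ha
    constructor
    · have h3 : ρ⁻¹ a = a := by
        rw [Equiv.Perm.inv_eq_iff_eq, h2 a ha]
      rw [Equiv.Perm.mul_apply, h3]
    · rw [Equiv.Perm.mul_apply, h2 a ha]

theorem swap_F (f g : Pr d) (A : Set (Site d)) (hA : ∀ a, F f a ∈ A ↔ a ∈ A)
    (h : IsSwap f g A) :
    (∀ a ∈ A, F g a = (F f)⁻¹ a) ∧ (∀ a, a ∉ A → F g a = F f a) := by
  constructor
  · intro a ha
    apply g.2.injective
    rw [SwapAux.F_apply, (h.1 a ha).1, (h.1 _ ((SwapAux.inv_mem f A hA a).2 ha)).2,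
      SwapAux.F_inv]
  · intro a ha
    apply g.2.injective
    rw [SwapAux.F_apply, (h.2 a ha).1, (h.2 _ (fun h1 => ha ((hA a).1 h1))).2, SwapAux.F_apply]

theorem swap_pow (f g : Pr d) (A : Set (Site d)) (hA : ∀ a, F f a ∈ A ↔ a ∈ A)
    (h : IsSwap f g A) (n : ℤ) :
    (∀ a ∈ A, (F g ^ n) a = (F f ^ (-n)) a) ∧ (∀ a, a ∉ A → (F g ^ n) a = (F f ^ n) a) := by
  obtain ⟨h1, h2⟩ := swap_F f g A hA h
  constructor
  · intro a ha
    rw [SwapAux.zpow_agree (F f)⁻¹ (F g) A (SwapAux.inv_mem f A hA) h1 n a ha, inv_zpow, zpow_neg]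
  · intro a ha
    exact SwapAux.zpow_agree (F f) (F g) Aᶜ (fun a => not_congr (hA a)) h2 n a ha

theorem swap_SC (f g : Pr d) (A : Set (Site d)) (hA : ∀ a, F f a ∈ A ↔ a ∈ A)
    (h : IsSwap f g A) (a b : Site d) : SC g a b ↔ SC f a b := by
  unfold SC Equiv.Perm.SameCycle
  by_cases ha : a ∈ A
  · constructor
    · rintro ⟨i, hi⟩
      exact ⟨-i, by rw [← (swap_pow f g A hA h i).1 a ha, hi]⟩
    · rintro ⟨i, hi⟩
      exact ⟨-i, by rw [(swap_pow f g A hA h (-i)).1 a ha, neg_neg, hi]⟩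
  · constructor
    · rintro ⟨i, hi⟩
      exact ⟨i, by rw [← (swap_pow f g A hA h i).2 a ha, hi]⟩
    · rintro ⟨i, hi⟩
      exact ⟨i, by rw [(swap_pow f g A hA h i).2 a ha, hi]⟩

theorem swap_inf (f g : Pr d) (A : Set (Site d)) (hA : ∀ a, F f a ∈ A ↔ a ∈ A)
    (h : IsSwap f g A) (a : Site d) : IsInf g a ↔ IsInf f a := by
  unfold IsInf
  refine forall_congr' fun n => imp_congr_right fun _ => not_congr ?_
  by_cases ha : a ∈ A
  · have h1 := (swap_pow f g A hA h n).1 a ha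
    rw [zpow_natCast] at h1
    rw [h1, zpow_neg, zpow_natCast, Equiv.Perm.inv_eq_iff_eq]
    exact eq_comm
  · have h1 := (swap_pow f g A hA h n).2 a ha
    rw [zpow_natCast, zpow_natCast] at h1
    rw [h1]

theorem swap_odd (f g : Pr d) (A : Set (Site d)) (hA : ∀ a, F f a ∈ A ↔ a ∈ A)
    (h : IsSwap f g A) (a y : Site d) : SC g a (g.1⁻¹ y) ↔ SC f a (f.1⁻¹ y) := by
  rw [swap_SC f g A hA h]
  have key : SC f (f.1⁻¹ y) (g.1⁻¹ y) := by
    by_cases hz : f.1⁻¹ y ∈ A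
    · have h1 : g.1⁻¹ y = F f (f.1⁻¹ y) := by
        rw [Equiv.Perm.inv_eq_iff_eq, (h.1 _ ((hA _).2 hz)).1, SwapAux.F_apply,
          SwapAux.ais]
      rw [h1]
      exact ⟨1, by rw [zpow_one]⟩
    · have h1 : g.1⁻¹ y = f.1⁻¹ y := by
        rw [Equiv.Perm.inv_eq_iff_eq, (h.2 _ hz).1, SwapAux.ais]
      rw [h1]
      exact Equiv.Perm.SameCycle.refl _ _
  exact ⟨fun h1 => Equiv.Perm.SameCycle.trans h1 (Equiv.Perm.SameCycle.symm key),
    fun h1 => Equiv.Perm.SameCycle.trans h1 key⟩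

theorem swap_isD (D : Finset (Site d)) (f g : Pr d) (A : Set (Site d)) (h : IsSwap f g A)
    (h1 : IsD D f.1) (h2 : IsD D f.2) : IsD D g.1 ∧ IsD D g.2 := by
  constructor
  · intro a
    by_cases ha : a ∈ A
    · rw [(h.1 a ha).1]
      exact h2 a
    · rw [(h.2 a ha).1]
      exact h1 a
  · intro a
    by_cases ha : a ∈ A
    · rw [(h.1 a ha).2]
      exact h1 a
    · rw [(h.2 a ha).2]
      exact h2 a

end DE
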