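import Pool.Agent.Helper10.DE.CC.Swap

/-!
# DE IX.2  Velocities of orbits: formal properties

`VOut G a V`: `(G^n a - a)/n → V`; `VIn G a V`: `(a - G^(-n) a)/n → V`.
* `vout_inv`: by definition (`rv (x - y) = - rv (y - x)`).
* `vout_pow`: a finite shift of time and a bounded change of the base point do not matter.
* `swap_type`: on `A`: `F g` acts as `(F f)⁻¹` (`swap_pow`), so `VOut (F g) a V ↔ VIn (F f) a (-V)`, and by
  `Good f` (`a` infinite) `VIn (F f) a W ↔ VOut (F f) a W`; off `A` nothing changes.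
-/

noncomputable section

namespace DE

open Filter Topology

variable {d : ℕ}

private theorem rv_neg' (x : Site d) : rv (-x) = -rv x := by
  funext i
  simp [rv]

private theorem rv_add' (x y : Site d) : rv (x + y) = rv x + rv y := by
  funext i
  simp [rv]

theorem vout_inv (G : Equiv.Perm (Site d)) (a : Site d) (V : Fin d → ℝ) :
    VOut G⁻¹ a V ↔ VIn G a (-V) := by
  have key : ∀ n : ℕ, (n : ℝ)⁻¹ • rv (a - (G⁻¹ ^ n) a) = -((n : ℝ)⁻¹ • rv ((G⁻¹ ^ n) a - a)) := by
    intro n
    rw [← smul_neg, ← rv_neg', neg_sub]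
  unfold VOut VIn
  constructor
  · intro h
    refine Tendsto.congr (fun n => (key n).symm) h.neg
  · intro h
    have h1 := h.neg
    rw [neg_neg] at h1
    refine Tendsto.congr (fun n => ?_) h1
    rw [key n, neg_neg]

theorem vin_inv (G : Equiv.Perm (Site d)) (a : Site d) (V : Fin d → ℝ) :
    VIn G⁻¹ a V ↔ VOut G a (-V) := by
  have h := vout_inv G⁻¹ a (-V)
  rw [inv_inv, neg_neg] at h
  exact h.symm

/-- averages of a sequence, seen from a base point -/
private def TT (u : ℕ → Site d) (b : Site d) (V : Fin d → ℝ) : Prop :=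
  Tendsto (fun n : ℕ => (n : ℝ)⁻¹ • rv (u n - b)) atTop (𝓝 V)

private theorem tinv : Tendsto (fun n : ℕ => (n : ℝ)⁻¹) atTop (𝓝 0) :=
  tendsto_inv_atTop_nhds_zero_nat

private theorem TT_base {u : ℕ → Site d} {b b' : Site d} {V : Fin d → ℝ} (h : TT u b V) :
    TT u b' V := by
  have h1 : Tendsto (fun n : ℕ => (n : ℝ)⁻¹ • rv (b - b')) atTop (𝓝 ((0 : ℝ) • rv (b - b'))) :=
    tinv.smul_const _
  rw [zero_smul] at h1
  have h2 := h.add h1
  rw [add_zero] at h2
  refine Tendsto.congr (fun n => ?_) h2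
  rw [← smul_add, ← rv_add']
  congr 2
  abel

private theorem TT_shift {u : ℕ → Site d} {b : Site d} {V : Fin d → ℝ} :
    TT (fun n => u (n + 1)) b V ↔ TT u b V := by
  have hr : Tendsto (fun n : ℕ => ((n : ℝ) + 1) / n) atTop (𝓝 1) := by
    have h1 : Tendsto (fun n : ℕ => 1 + (n : ℝ)⁻¹) atTop (𝓝 (1 + 0)) :=
      tendsto_const_nhds.add tinv
    rw [add_zero] at h1
    refine Tendsto.congr' ?_ h1
    filter_upwards [eventually_gt_atTop 0] with n hn
    have : (n : ℝ) ≠ 0 := by
      have : (0 : ℝ) < n := by exact_mod_cast hn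
      exact this.ne'
    field_simp
  have hr' : Tendsto (fun n : ℕ => (n : ℝ) / (n + 1)) atTop (𝓝 1) :=
    tendsto_natCast_div_add_atTop (1 : ℝ)
  unfold TT
  constructor
  · intro h
    rw [← tendsto_add_atTop_iff_nat 1]
    have h2 := hr'.smul h
    rw [one_smul] at h2
    refine Tendsto.congr' ?_ h2
    filter_upwards [eventually_gt_atTop 0] with n hn
    have h0 : (n : ℝ) ≠ 0 := by
      have : (0 : ℝ) < n := by exact_mod_cast hn
      exact this.ne'
    rw [smul_smul]
    congr 1
    push_cast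
    field_simp
  · intro h
    rw [← tendsto_add_atTop_iff_nat 1] at h
    have h2 := hr.smul h
    rw [one_smul] at h2
    refine Tendsto.congr' ?_ h2
    filter_upwards [eventually_gt_atTop 0] with n hn
    have h0 : (n : ℝ) ≠ 0 := by
      have : (0 : ℝ) < n := by exact_mod_cast hn
      exact this.ne'
    have h1 : (n : ℝ) + 1 ≠ 0 := by positivity
    rw [smul_smul]
    congr 1
    push_cast
    field_simp

private theorem vout_one (G : Equiv.Perm (Site d)) (a : Site d) (V : Fin d → ℝ) :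
    VOut G (G a) V ↔ VOut G a V := by
  have h1 : VOut G (G a) V ↔ TT (fun n => (G ^ (n + 1)) a) (G a) V := by
    unfold VOut TT
    have e : ∀ n : ℕ, (G ^ n) (G a) = (G ^ (n + 1)) a := by
      intro n
      rw [pow_succ]
      rfl
    simp only [e]
  have h2 : TT (fun n => (G ^ (n + 1)) a) (G a) V ↔ TT (fun n => (G ^ n) a) (G a) V :=
    TT_shift (u := fun n => (G ^ n) a)
  rw [h1, h2]
  exact ⟨TT_base, TT_base⟩

theorem vout_pow (G : Equiv.Perm (Site d)) (a : Site d) (V : Fin d → ℝ) (k : ℤ) :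
    VOut G ((G ^ k) a) V ↔ VOut G a V := by
  induction k using Int.induction_on with
  | zero => simp
  | succ k ih =>
    have e : (G ^ ((k : ℤ) + 1)) a = G ((G ^ (k : ℤ)) a) := by
      rw [add_comm, zpow_add, zpow_one]
      rfl
    rw [e, vout_one]
    exact ih
  | pred k ih =>
    have e : (G ^ (-(k : ℤ))) a = G ((G ^ (-(k : ℤ) - 1)) a) := by
      have : -(k : ℤ) = 1 + (-(k : ℤ) - 1) := by ring
      conv_lhs => rw [this, zpow_add, zpow_one]
      rfl
    rw [e, vout_one] at ih
    exact ih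

theorem vin_pow (G : Equiv.Perm (Site d)) (a : Site d) (V : Fin d → ℝ) (k : ℤ) :
    VIn G ((G ^ k) a) V ↔ VIn G a V := by
  have h1 : ∀ b, VIn G b V ↔ VOut G⁻¹ b (-V) := by
    intro b
    rw [vout_inv, neg_neg]
  have h2 : (G ^ k) a = (G⁻¹ ^ (-k)) a := by
    rw [inv_zpow', neg_neg]
  rw [h1, h1, h2]
  exact vout_pow G⁻¹ a (-V) (-k)

theorem vout_unique (G : Equiv.Perm (Site d)) (a : Site d) (V V' : Fin d → ℝ)
    (h : VOut G a V) (h' : VOut G a V') : V = V' :=
  tendsto_nhds_unique h h'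

theorem vin_unique (G : Equiv.Perm (Site d)) (a : Site d) (V V' : Fin d → ℝ)
    (h : VIn G a V) (h' : VIn G a V') : V = V' :=
  tendsto_nhds_unique h h'

theorem vout_congr (G H : Equiv.Perm (Site d)) (a : Site d) (V : Fin d → ℝ)
    (h : ∀ n : ℕ, (H ^ n) a = (G ^ n) a) : VOut H a V ↔ VOut G a V := by
  unfold VOut
  simp only [h]

theorem vin_congr (G H : Equiv.Perm (Site d)) (a : Site d) (V : Fin d → ℝ)
    (h : ∀ n : ℕ, (H⁻¹ ^ n) a = (G⁻¹ ^ n) a) : VIn H a V ↔ VIn G a V := by
  unfold VIn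
  simp only [h]

theorem swap_type (f g : Pr d) (A : Set (Site d)) (hA : ∀ a, F f a ∈ A ↔ a ∈ A)
    (h : IsSwap f g A) (hf : Good f) (a : Site d) (ha : IsInf f a) (V : Fin d → ℝ) :
    HasType g a V ↔ HasType f a V := by
  by_cases haA : a ∈ A
  · obtain ⟨V₀, h1, h2⟩ := hf a ha
    have hin : ∀ W, VIn (F f) a W ↔ VOut (F f) a W := by
      intro W
      constructor
      · intro h3
        rw [vin_unique _ _ _ _ h3 h2]
        exact h1
      · intro h3
        rw [vout_unique _ _ _ _ h3 h1]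
        exact h2
    have hout : ∀ W, VOut (F g) a W ↔ VOut (F f) a (-W) := by
      intro W
      have e : ∀ n : ℕ, (F g ^ n) a = ((F f)⁻¹ ^ n) a := by
        intro n
        have h3 := (swap_pow f g A hA h n).1 a haA
        rw [zpow_natCast] at h3
        rw [h3, inv_pow, zpow_neg, zpow_natCast]
      rw [vout_congr _ _ _ _ e, vout_inv, hin]
    unfold HasType
    rw [hout, hout, neg_neg]
    exact or_comm
  · have e : ∀ n : ℕ, (F g ^ n) a = (F f ^ n) a := by
      intro n
      have h3 := (swap_pow f g A hA h n).2 a haA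
      rw [zpow_natCast, zpow_natCast] at h3
      exact h3
    unfold HasType
    rw [vout_congr _ _ _ _ e, vout_congr _ _ _ _ e]

end DE
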